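import Pool.Agent.H769CMin.Basic

/-!
# MP_35204b_gt, Q1

If `A` is a minimal abelian topological group and `K` is a compact Hausdorff group, then every closed
subgroup of `A × K` is minimal.
-/

set_option autoImplicit false

universe u

namespace Pool.Agent.Results.MP_35204b_gt.CMinimalProduct

open Pool.Agent.H769CMin

theorem result (A K : Type u) [CommGroup A] [TopologicalSpace A]
    [Group K] [TopologicalSpace K] [IsTopologicalGroup K] [T2Space K] [CompactSpace K]
    (hA : IsMinimalGroup A) : IsCMinimalGroup (A × K) :=
  cMinimal_prod hA

end Pool.Agent.Results.MP_35204b_gt.CMinimalProduct
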