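import Pool.Agent.H769CMin.Basic

/-!
# MP_35204b_gt, Q2

If `A` is a totally minimal abelian topological group and `K` is a compact Hausdorff group, then every
closed subgroup of `A × K` is totally minimal.
-/

set_option autoImplicit false

universe u

namespace Pool.Agent.Results.MP_35204b_gt.CTotallyMinimalProduct

open Pool.Agent.H769CMin

theorem result (A K : Type u) [CommGroup A] [TopologicalSpace A]
    [Group K] [TopologicalSpace K] [IsTopologicalGroup K] [T2Space K] [CompactSpace K]
    (hA : IsTotallyMinimalGroup A) : IsCTotallyMinimalGroup (A × K) :=
  cTotallyMinimal_prod hA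

end Pool.Agent.Results.MP_35204b_gt.CTotallyMinimalProduct
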